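import Pool.Agent.Helper6.LPB.St

/-!
# Project LPB (MP_5e9b96_nt), module ONU: one `y`, upper bound
-/

set_option autoImplicit false

namespace Pool.Agent.Helper10.LPB

open Finset
open Pool.Agent.Helper6.LP
open Pool.Agent.Helper6.LPB
open Pool.Agent.Helper60.LZ (js)
open Pool.Agent.Helper98.LM (QQ)

private theorem ff_congr {n n' y l : ℤ} (h : n ≡ n' [ZMOD l]) : ff n y ≡ ff n' y [ZMOD l] := by
  unfold ff fa fb
  exact ((h.sub_right y).add (h.mul_right y)).mul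
    (((h.sub_right y).pow 2).add (h.mul_right (y ^ 2)))

private theorem memS (P a y l m : ℕ) (hl : 0 < l) :
    m % l ∈ SS P a y l ↔ (l : ℤ) ∣ ff ((a : ℤ) + P * m) y := by
  unfold SS
  rw [mem_filter, mem_range]
  have h2 : ((a : ℤ) + P * m) ≡ (a : ℤ) + P * ((m % l : ℕ) : ℤ) [ZMOD (l : ℤ)] := by
    refine Int.ModEq.add_left _ (Int.ModEq.mul_left _ ?_)
    rw [Int.natCast_mod]
    exact (Int.mod_modEq _ _).symm
  have h3 := ff_congr (y := (y : ℤ)) h2
  rw [← Int.modEq_zero_iff_dvd, ← Int.modEq_zero_iff_dvd]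
  constructor
  · rintro ⟨_, h⟩
    exact h3.trans h
  · intro h
    exact ⟨Nat.mod_lt _ hl, h3.symm.trans h⟩

private theorem js_le (t l : ℕ) : js t l ≤ 1 := by
  unfold js
  rcases jacobiSym.trichotomy ((t : ℤ) ^ 2 - 4) l with h | h | h <;> rw [h] <;> norm_num

private theorem memQ (p w l : ℕ) (hp : 24 ≤ p) (h : l ∈ QQ p w) :
    l.Prime ∧ 12 ≤ l ∧ l ≤ w ∧ p < l := by
  unfold QQ at h
  rw [mem_filter, mem_Ioc] at h
  exact ⟨h.2, by omega, h.1.2, h.1.1⟩

private theorem key (l s t : ℕ) (hs : s < l) (ht : t < l) (hd : (l : ℤ) ∣ (s : ℤ) - t) : s = t := by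
  have h := Int.eq_zero_of_abs_lt_dvd hd (by rw [abs_lt]; constructor <;> omega)
  omega

private theorem card_one (l : ℕ) (hl : l.Prime) (h : 12 ≤ l) : (SS 1 0 1 l).card ≤ 6 := by
  classical
  have hp : Prime (l : ℤ) := Nat.prime_iff_prime_int.1 hl
  have hsub : SS 1 0 1 l ⊆ (range l).filter (fun s : ℕ => (l : ℤ) ∣ 2 * (s : ℤ) - 1) ∪
      (range l).filter (fun s : ℕ => (l : ℤ) ∣ (s : ℤ) ^ 2 - s + 1) := by
    intro s hs
    unfold SS at hs
    rw [mem_filter] at hs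
    have h1 := hs.2
    unfold ff at h1
    rw [mem_union, mem_filter, mem_filter]
    rcases hp.dvd_or_dvd h1 with h2 | h2
    · left
      refine ⟨hs.1, ?_⟩
      have e : fa (((0 : ℕ) : ℤ) + ((1 : ℕ) : ℤ) * (s : ℤ)) ((1 : ℕ) : ℤ) = 2 * (s : ℤ) - 1 := by
        unfold fa; push_cast; ring
      rw [e] at h2
      exact h2
    · right
      refine ⟨hs.1, ?_⟩
      have e : fb (((0 : ℕ) : ℤ) + ((1 : ℕ) : ℤ) * (s : ℤ)) ((1 : ℕ) : ℤ) = (s : ℤ) ^ 2 - s + 1 := by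
        unfold fb; push_cast; ring
      rw [e] at h2
      exact h2
  have hA : ((range l).filter (fun s : ℕ => (l : ℤ) ∣ 2 * (s : ℤ) - 1)).card ≤ 1 := by
    rw [card_le_one]
    intro s hs t ht
    rw [mem_filter, mem_range] at hs ht
    apply key l s t hs.1 ht.1
    have h3 : (l : ℤ) ∣ 2 * ((s : ℤ) - t) := by
      have := dvd_sub hs.2 ht.2
      have e : 2 * ((s : ℤ) - t) = (2 * (s : ℤ) - 1) - (2 * (t : ℤ) - 1) := by ring
      rw [e]; exact this
    rcases hp.dvd_or_dvd h3 with h4 | h4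
    · exfalso
      have := Int.le_of_dvd (by norm_num) h4
      omega
    · exact h4
  have hB : ((range l).filter (fun s : ℕ => (l : ℤ) ∣ (s : ℤ) ^ 2 - s + 1)).card ≤ 2 := by
    by_contra hc
    obtain ⟨a, ha, b, hb, c, hc', hab, hac, hbc⟩ := two_lt_card.1 (not_le.1 hc)
    rw [mem_filter, mem_range] at ha hb hc'
    have f : ∀ x y : ℕ, x < l → y < l → (l : ℤ) ∣ (x : ℤ) ^ 2 - x + 1 → (l : ℤ) ∣ (y : ℤ) ^ 2 - y + 1 →
        x ≠ y → (l : ℤ) ∣ (x : ℤ) + y - 1 := by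
      intro x y hx hy h1 h2 hne
      have h3 : (l : ℤ) ∣ ((x : ℤ) - y) * ((x : ℤ) + y - 1) := by
        have e : ((x : ℤ) - y) * ((x : ℤ) + y - 1) = ((x : ℤ) ^ 2 - x + 1) - ((y : ℤ) ^ 2 - y + 1) := by
          ring
        rw [e]; exact dvd_sub h1 h2
      rcases hp.dvd_or_dvd h3 with h4 | h4
      · exact absurd (key l x y hx hy h4) hne
      · exact h4
    have h1 := f a b ha.1 hb.1 ha.2 hb.2 hab
    have h2 := f a c ha.1 hc'.1 ha.2 hc'.2 hac
    apply hbc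
    apply key l b c hb.1 hc'.1
    have e : (b : ℤ) - c = ((a : ℤ) + b - 1) - ((a : ℤ) + c - 1) := by ring
    rw [e]
    exact dvd_sub h1 h2
  have h5 := card_le_card hsub
  have h6 := card_union_le ((range l).filter (fun s : ℕ => (l : ℤ) ∣ 2 * (s : ℤ) - 1))
      ((range l).filter (fun s : ℕ => (l : ℤ) ∣ (s : ℤ) ^ 2 - s + 1))
  omega

theorem hONU (hS : StSV6) (hL : StLOP) : StONU := by
  classical
  obtain ⟨B, hB⟩ := hS 1 one_pos
  refine ⟨B + 1, by omega, ?_⟩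
  intro y w M hw hy
  have h := hB w M hw (QQ 32 w) (SS 1 0 y) (fun l hl => by
    have := memQ 32 w l (by norm_num) hl; exact ⟨this.1, this.2.1, this.2.2.1⟩) (fun l hl => by
    obtain ⟨q1, q2, q3, q4⟩ := memQ 32 w l (by norm_num) hl
    refine ⟨fun s hs => ?_, ?_⟩
    · unfold SS at hs
      exact mem_range.1 (mem_filter.1 hs).1
    · rcases Nat.lt_or_ge 1 y with h1y | h1y
      · have h1 := (hL 1 0 l q1 (by omega) (fun hd => by
          have := Nat.dvd_one.1 hd; omega)).1 y h1y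
        have h2 := js_le (y - 2) l
        have h3 : ((SS 1 0 y l).card : ℝ) ≤ 6 := by linarith
        exact_mod_cast h3
      · have e : y = 1 := by omega
        rw [e]
        exact card_one l q1 q2)
  have e : (Icc 1 M).filter (fun m : ℕ => ∀ l ∈ QQ 32 w, ¬ (l : ℤ) ∣ ff m y) =
      (Icc 1 M).filter (fun m : ℕ => ∀ l ∈ QQ 32 w, m % l ∉ SS 1 0 y l) := by
    apply filter_congr
    intro m _
    refine forall₂_congr fun l hl => ?_
    rw [memS 1 0 y l m (by have := memQ 32 w l (by norm_num) hl; omega)]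
    have e2 : (((0 : ℕ) : ℤ) + ((1 : ℕ) : ℤ) * (m : ℤ)) = (m : ℤ) := by push_cast; ring
    rw [e2]
  have h7 := (abs_le.1 h).2
  have h8 : (w : ℝ) ^ B ≤ (w : ℝ) ^ (B + 1) :=
    pow_le_pow_right₀ (by exact_mod_cast (by omega : 1 ≤ w)) (by omega)
  have h9 : (((Icc 1 M).filter (fun m : ℕ => ∀ l ∈ QQ 32 w, m % l ∉ SS 1 0 y l)).card : ℝ) ≤
      2 * (M * VV 32 w 1 0 y) + (w : ℝ) ^ (B + 1) := by
    unfold VV
    linarith
  rw [← e] at h9
  convert h9 using 3

end Pool.Agent.Helper10.LPB
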